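import Mathlib

/-!
# Project SC: almost all Cayley graphs of all finite groups are stable
Statements of the lemma jobs.  All decidability instances are classical.
-/

open Classical

namespace Pool.Agent.Q18.SC

universe u

/-- The classes `{t, t⁻¹}` of a group. -/
def invSetoid (G : Type u) [Group G] : Setoid G where
  r a b := a = b ∨ a = b⁻¹
  iseqv := by
    refine ⟨fun a => Or.inl rfl, ?_, ?_⟩
    · rintro a b (h | h)
      · exact Or.inl h.symm
      · exact Or.inr (by rw [h, inv_inv])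
    · rintro a b c (h | h) (h' | h')
      · exact Or.inl (h.trans h')
      · exact Or.inr (h.trans h')
      · exact Or.inr (by rw [h, h'])
      · exact Or.inl (by rw [h, h', inv_inv])

/-- The type of the classes `{t, t⁻¹}`. -/
abbrev Cls (G : Type u) [Group G] : Type u := Quotient (invSetoid G)

/-- The class of an element. -/
def q {G : Type u} [Group G] (t : G) : Cls G := Quotient.mk (invSetoid G) t

theorem q_eq_iff {G : Type u} [Group G] (a b : G) : q a = q b ↔ a = b ∨ a = b⁻¹ := by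
  unfold q
  exact Quotient.eq

noncomputable instance {G : Type u} [Group G] [Fintype G] : Fintype (Cls G) :=
  Fintype.ofFinite _

/-- JOB CUT: max-cut for functional graphs. -/
def S_CUT : Prop :=
  ∀ (C : Type u) [Fintype C] (J : Finset C) (f : C → C), (∀ c ∈ J, f c ≠ c) →
    ∃ I : Finset C, I ⊆ J ∧ J.card ≤ 4 * I.card ∧ ∀ c ∈ I, f c ∉ I

/-- JOB CNT: counting the solutions of `|I|` independent equations. -/
def S_CNT : Prop :=
  ∀ (C : Type u) [Fintype C] (I : Finset C) (f : C → C), (∀ c ∈ I, f c ∉ I) →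
    (Finset.univ.filter (fun b : C → Bool => ∀ c ∈ I, b c = b (f c))).card * 2 ^ I.card
      ≤ 2 ^ Fintype.card C

/-- JOB PAI: disjoint pairs, none of them equal to (true, true). -/
def S_PAI : Prop :=
  ∀ (C : Type u) [Fintype C] (I : Finset C) (f : C → C), (∀ c ∈ I, f c ∉ I) →
    Set.InjOn f (I : Set C) →
    (Finset.univ.filter (fun b : C → Bool =>
      ∀ c ∈ I, ¬ (b c = true ∧ b (f c) = true))).card * 4 ^ I.card
      ≤ 3 ^ I.card * 2 ^ Fintype.card C

/-- JOB SMP: sampling `k` rows and `k` columns of a dense set `T` of pairs: many different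
classes `q (y x⁻¹)`. -/
def S_SMP : Prop :=
  ∀ (G : Type u) [Group G] [Fintype G] (T : Finset (G × G)) (τ : ℝ) (k : ℕ), 0 < τ →
    τ * (Fintype.card G : ℝ) ^ 2 ≤ (T.card : ℝ) → 4 * (k : ℝ) ^ 2 ≤ τ * (Fintype.card G : ℝ) →
    ∃ x y : Fin k → G,
      τ / 2 * (k : ℝ) ^ 2 ≤
        (((Finset.univ.filter (fun p : Fin k × Fin k => (x p.1, y p.2) ∈ T)).image
          (fun p => q (y p.2 * (x p.1)⁻¹))).card : ℝ)

/-- JOB MIL: at most three quarters of the elements are square roots of `h ≠ 1`. -/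
def S_MIL : Prop :=
  ∀ (G : Type u) [Group G] [Fintype G] (h : G), h ≠ 1 →
    4 * (Finset.univ.filter (fun v : G => v * v = h)).card ≤ 3 * Fintype.card G

/-- JOB CEN: a conjugation equation with more than `n/2` solutions. -/
def S_CEN : Prop :=
  ∀ (G : Type u) [Group G] [Fintype G] (k c : G),
    Fintype.card G < 2 * (Finset.univ.filter (fun t : G => t⁻¹ * k * t = c)).card →
    ∀ g : G, g * k = k * g

/-- The pairs at which the two-fold permutation `(x ↦ x f(x), y ↦ y f'(y))` is not algebraic. -/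
noncomputable def badSet {G : Type u} [Group G] [Fintype G] (f f' : G → G) : Finset (G × G) :=
  Finset.univ.filter (fun p : G × G =>
    ¬ (f p.1 = f' p.2 ∨ (p.2⁻¹ * p.1) ^ 2 = f' p.2 * (f p.1)⁻¹))

/-- The pairs at which the equation for the inversion fails. -/
noncomputable def badInv {G : Type u} [Group G] [Fintype G] (f f' : G → G) : Finset (G × G) :=
  Finset.univ.filter (fun p : G × G => ¬ ((p.2⁻¹ * p.1) ^ 2 = f' p.2 * (f p.1)⁻¹))

/-- JOB RGA: if the second alternative holds at almost all pairs, then `f = f'` almost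
everywhere. -/
def S_RGA : Prop :=
  ∀ (G : Type u) [Group G] [Fintype G] (f f' : G → G) (η : ℝ), η ≤ 1 / 16 →
    ((badInv f f').card : ℝ) ≤ η * (Fintype.card G : ℝ) ^ 2 →
    ((Finset.univ.filter (fun x : G => f x ≠ f' x)).card : ℝ) ≤ 3 * η * (Fintype.card G : ℝ)

/-- JOB ANT: almost all pairs of a dense set cannot satisfy `(y⁻¹ x)² = w` with `w ≠ 1`. -/
def S_ANT : Prop :=
  ∀ d : ℝ, 0 < d → ∃ c : ℝ, 0 < c ∧ ∀ (G : Type u) [Group G] [Fintype G] (w : G) (Y : Finset G),
    w ≠ 1 → d * (Fintype.card G : ℝ) ≤ (Y.card : ℝ) →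
    c * (Fintype.card G : ℝ) ^ 2 <
      (((Y ×ˢ Y).filter (fun p : G × G => (p.2⁻¹ * p.1) ^ 2 ≠ w)).card : ℝ)

/-- JOB STR: the structure theorem. -/
def S_STR : Prop :=
  ∀ ε : ℝ, 0 < ε → ∃ c : ℝ, 0 < c ∧ ∀ (G : Type u) [Group G] [Fintype G] (f f' : G → G),
    ((badSet f f').card : ℝ) ≤ c * (Fintype.card G : ℝ) ^ 2 →
    ((Finset.univ.filter (fun x : G => f x ≠ f' x)).card : ℝ) ≤ ε * (Fintype.card G : ℝ)

/-- JOB UNI: the union bound over samples. -/
def S_UNI : Prop :=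
  ∀ τ : ℝ, 0 < τ → ∃ c : ℝ, 0 < c ∧ ∃ n₀ : ℕ, ∀ (G : Type u) [Group G] [Fintype G],
    n₀ ≤ Fintype.card G →
    ((Finset.univ.filter (fun b : Cls G → Bool => ∃ α β : G → G,
      (∀ x y : G, b (q (y * x⁻¹)) = b (q (β y * (α x)⁻¹))) ∧
      τ * (Fintype.card G : ℝ) ^ 2 ≤
        ((Finset.univ.filter (fun p : G × G =>
          q (p.2 * p.1⁻¹) ≠ q (β p.2 * (α p.1)⁻¹))).card : ℝ))).card : ℝ)
      ≤ (2 : ℝ) ^ (-(c * (Fintype.card G : ℝ))) * (2 : ℝ) ^ (Fintype.card (Cls G))

/-- JOB FIN: neighbourhoods of different vertices differ at many places. -/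
def S_FIN : Prop :=
  ∃ c : ℝ, 0 < c ∧ ∃ n₀ : ℕ, ∀ (G : Type u) [Group G] [Fintype G],
    n₀ ≤ Fintype.card G →
    ((Finset.univ.filter (fun b : Cls G → Bool => ∃ h : G, h ≠ 1 ∧
      ((Finset.univ.filter (fun u : G => b (q u) ≠ b (q (u * h)))).card : ℝ)
        ≤ (Fintype.card G : ℝ) / 1024)).card : ℝ)
      ≤ (2 : ℝ) ^ (-(c * (Fintype.card G : ℝ))) * (2 : ℝ) ^ (Fintype.card (Cls G))

/-- JOB COM: any two vertices have a common neighbour. -/
def S_COM : Prop :=
  ∃ c : ℝ, 0 < c ∧ ∃ n₀ : ℕ, ∀ (G : Type u) [Group G] [Fintype G],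
    n₀ ≤ Fintype.card G →
    ((Finset.univ.filter (fun b : Cls G → Bool => ∃ g : G, ∀ v : G,
      ¬ (b (q v) = true ∧ b (q (v * g)) = true))).card : ℝ)
      ≤ (2 : ℝ) ^ (-(c * (Fintype.card G : ℝ))) * (2 : ℝ) ^ (Fintype.card (Cls G))

end Pool.Agent.Q18.SC
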