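import Pool.Agent.Q18.SC.Stm

/-!
# Project SC: assembly
-/

open Classical

namespace Pool.Agent.Q18.SC

universe u

/-- Adjacency in the Cayley graph `Cay(G,S)`. -/
def cayAdj {G : Type u} [Group G] (S : Finset G) (x y : G) : Prop := y * x⁻¹ ∈ S

/-- Adjacency in the standard double cover. -/
def coverAdj {V : Type u} (A : V → V → Prop) (p r : V × Bool) : Prop := A p.1 r.1 ∧ p.2 ≠ r.2

/-- Automorphisms of the graph with adjacency relation `A`. -/
def IsAut {V : Type u} (A : V → V → Prop) (σ : Equiv.Perm V) : Prop :=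
  ∀ u v, A (σ u) (σ v) ↔ A u v

/-- Stable: all automorphisms of the double cover come from `Aut(Γ) × Aut(K₂)`. -/
def Stable {V : Type u} (A : V → V → Prop) : Prop :=
  ∀ σ : Equiv.Perm (V × Bool), IsAut (coverAdj A) σ →
    ∃ α : Equiv.Perm V, IsAut A α ∧ ∃ τ : Equiv.Perm Bool, ∀ p, σ p = (α p.1, τ p.2)

/-- The set belonging to a function on the classes. -/
noncomputable def setOf' {G : Type u} [Group G] [Fintype G] (b : Cls G → Bool) : Finset G :=
  Finset.univ.filter (fun t => b (q t) = true)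

theorem mem_setOf' {G : Type u} [Group G] [Fintype G] (b : Cls G → Bool) (t : G) :
    t ∈ setOf' b ↔ b (q t) = true := by
  simp [setOf']

theorem q_inv {G : Type u} [Group G] (t : G) : q t⁻¹ = q t :=
  (q_eq_iff _ _).2 (Or.inr rfl)

/-- The deterministic part. -/
theorem stable_of {G : Type u} [Group G] [Fintype G] (b : Cls G → Bool) (τ : ℝ)
    (hτ : ∀ f f' : G → G, ((badSet f f').card : ℝ) ≤ τ * (Fintype.card G : ℝ) ^ 2 →
      ((Finset.univ.filter (fun x : G => f x ≠ f' x)).card : ℝ) ≤
        1 / 1024 * (Fintype.card G : ℝ))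
    (h1 : ¬ ∃ α β : G → G,
      (∀ x y : G, b (q (y * x⁻¹)) = b (q (β y * (α x)⁻¹))) ∧
      τ * (Fintype.card G : ℝ) ^ 2 ≤
        ((Finset.univ.filter (fun p : G × G =>
          q (p.2 * p.1⁻¹) ≠ q (β p.2 * (α p.1)⁻¹))).card : ℝ))
    (h2 : ¬ ∃ h : G, h ≠ 1 ∧
      ((Finset.univ.filter (fun u : G => b (q u) ≠ b (q (u * h)))).card : ℝ)
        ≤ (Fintype.card G : ℝ) / 1024)
    (h3 : ¬ ∃ g : G, ∀ v : G, ¬ (b (q v) = true ∧ b (q (v * g)) = true)) :
    Stable (cayAdj (setOf' b)) := by
  intro σ hσ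
  have hA : ∀ x y : G, cayAdj (setOf' b) x y ↔ b (q (y * x⁻¹)) = true := by
    intro x y
    unfold cayAdj
    rw [mem_setOf']
  have hAs : ∀ x y : G, cayAdj (setOf' b) x y ↔ cayAdj (setOf' b) y x := by
    intro x y
    rw [hA, hA]
    have : q (x * y⁻¹) = q (y * x⁻¹) := by
      rw [← q_inv (y * x⁻¹)]
      simp
    rw [this]
  -- common neighbours
  have hcom : ∀ x y : G, ∃ z : G, cayAdj (setOf' b) x z ∧ cayAdj (setOf' b) y z := by
    intro x y
    have h3' : ∃ v : G, b (q v) = true ∧ b (q (v * (x * y⁻¹))) = true := by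
      by_contra hcon
      exact h3 ⟨x * y⁻¹, fun v hv => hcon ⟨v, hv⟩⟩
    obtain ⟨v, hv1, hv2⟩ := h3'
    refine ⟨v * x, ?_, ?_⟩
    · rw [hA]
      simpa using hv1
    · rw [hA]
      have : v * x * y⁻¹ = v * (x * y⁻¹) := by group
      rw [this]
      exact hv2
  have hpart : ∀ (i : Bool) (x y : G), (σ (x, i)).2 = (σ (y, i)).2 := by
    intro i x y
    obtain ⟨z, hz1, hz2⟩ := hcom x y
    have e1 : coverAdj (cayAdj (setOf' b)) (x, i) (z, !i) := ⟨hz1, by cases i <;> simp⟩
    have e2 : coverAdj (cayAdj (setOf' b)) (y, i) (z, !i) := ⟨hz2, by cases i <;> simp⟩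
    have e3 := ((hσ _ _).2 e1).2
    have e4 := ((hσ _ _).2 e2).2
    revert e3 e4
    cases (σ (x, i)).2 <;> cases (σ (y, i)).2 <;> cases (σ (z, !i)).2 <;> simp
  have hpart2 : ∀ (x y : G), (σ (x, false)).2 ≠ (σ (y, true)).2 := by
    intro x y
    obtain ⟨z, hz1, hz2⟩ := hcom x x
    have e1 : coverAdj (cayAdj (setOf' b)) (x, false) (z, true) := ⟨hz1, by simp⟩
    have e3 := ((hσ _ _).2 e1).2
    rw [hpart true y z]
    exact e3
  set α : G → G := fun x => (σ (x, false)).1 with hα
  set β : G → G := fun x => (σ (x, true)).1 with hβ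
  have hαβ : ∀ x y : G, cayAdj (setOf' b) x y ↔ cayAdj (setOf' b) (α x) (β y) := by
    intro x y
    constructor
    · intro h
      have e1 : coverAdj (cayAdj (setOf' b)) (x, false) (y, true) := ⟨h, by simp⟩
      exact ((hσ _ _).2 e1).1
    · intro h
      have e1 : coverAdj (cayAdj (setOf' b)) (σ (x, false)) (σ (y, true)) :=
        ⟨h, hpart2 x y⟩
      exact ((hσ _ _).1 e1).1
  have hβinj : Function.Injective β := by
    intro y y' h
    have : σ (y, true) = σ (y', true) := Prod.ext h (hpart true y y')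
    have := σ.injective this
    exact (Prod.mk.inj this).1
  have hαinj : Function.Injective α := by
    intro y y' h
    have : σ (y, false) = σ (y', false) := Prod.ext h (hpart false y y')
    have := σ.injective this
    exact (Prod.mk.inj this).1
  have hbit : ∀ x y : G, b (q (y * x⁻¹)) = b (q (β y * (α x)⁻¹)) := by
    intro x y
    have := hαβ x y
    rw [hA, hA] at this
    exact Bool.eq_iff_iff.2 this
  have hfew : ((Finset.univ.filter (fun p : G × G =>
          q (p.2 * p.1⁻¹) ≠ q (β p.2 * (α p.1)⁻¹))).card : ℝ) ≤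
          τ * (Fintype.card G : ℝ) ^ 2 := by
    by_contra hcon
    exact h1 ⟨α, β, hbit, (not_le.1 hcon).le⟩
  have hsub : badSet (fun x => x⁻¹ * α x) (fun y => y⁻¹ * β y) ⊆
      Finset.univ.filter (fun p : G × G => q (p.2 * p.1⁻¹) ≠ q (β p.2 * (α p.1)⁻¹)) := by
    intro p hp
    simp only [badSet, Finset.mem_filter, Finset.mem_univ, true_and] at hp ⊢
    intro hq
    apply hp
    rcases (q_eq_iff _ _).1 hq with h | h
    · left
      have h' : β p.2 = p.2 * p.1⁻¹ * α p.1 := by
        rw [h]; group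
      rw [h']; group
    · right
      have h' : β p.2 * (α p.1)⁻¹ = p.1 * p.2⁻¹ := by
        have := congrArg (fun z => z⁻¹) h
        simp only [inv_inv] at this
        rw [← this]; group
      have h'' : β p.2 = p.1 * p.2⁻¹ * α p.1 := by
        rw [← h']; group
      rw [h'', pow_two]
      group
  have hmost : ((Finset.univ.filter (fun x : G => α x ≠ β x)).card : ℝ) ≤
      1 / 1024 * (Fintype.card G : ℝ) := by
    refine le_trans ?_ (hτ (fun x => x⁻¹ * α x) (fun y => y⁻¹ * β y)
      (le_trans (by exact_mod_cast Finset.card_le_card hsub) hfew))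
    have : (Finset.univ.filter (fun x : G => α x ≠ β x)) ⊆
        (Finset.univ.filter (fun x : G => x⁻¹ * α x ≠ x⁻¹ * β x)) := by
      intro x hx
      simp only [Finset.mem_filter, Finset.mem_univ, true_and] at hx ⊢
      intro h
      exact hx (mul_left_cancel h)
    exact_mod_cast Finset.card_le_card this
  have hEq : ∀ x, α x = β x := by
    intro x
    by_contra hne
    apply h2
    refine ⟨α x * (β x)⁻¹, ?_, ?_⟩
    · intro h
      apply hne
      exact mul_inv_eq_one.1 h
    · have key : ∀ y : G, α y = β y →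
          b (q (β y * (α x)⁻¹)) = b (q (β y * (α x)⁻¹ * (α x * (β x)⁻¹))) := by
        intro y hy
        have e1 : β y * (α x)⁻¹ * (α x * (β x)⁻¹) = β y * (β x)⁻¹ := by group
        rw [e1, ← hbit x y]
        have e2 : b (q (y * x⁻¹)) = b (q (x * y⁻¹)) := by
          congr 1
          rw [← q_inv (y * x⁻¹)]
          simp
        rw [e2, hbit y x, hy]
        congr 1
        rw [← q_inv (β y * (β x)⁻¹)]
        simp
      have hcard : (Finset.univ.filter (fun u : G =>
          b (q u) ≠ b (q (u * (α x * (β x)⁻¹))))).card ≤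
          (Finset.univ.filter (fun y : G => α y ≠ β y)).card := by
        have hβb : Function.Bijective β := (Finite.injective_iff_bijective).1 hβinj
        have : (Finset.univ.filter (fun u : G =>
            b (q u) ≠ b (q (u * (α x * (β x)⁻¹))))) ⊆
            (Finset.univ.filter (fun y : G => α y ≠ β y)).image
              (fun y => β y * (α x)⁻¹) := by
          intro u hu
          simp only [Finset.mem_filter, Finset.mem_univ, true_and] at hu
          obtain ⟨y, hy⟩ := hβb.2 (u * α x)
          rw [Finset.mem_image]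
          have hu' : β y * (α x)⁻¹ = u := by rw [hy]; group
          refine ⟨y, ?_, hu'⟩
          simp only [Finset.mem_filter, Finset.mem_univ, true_and]
          intro hyy
          apply hu
          have := key y hyy
          rw [hu'] at this
          exact this
        exact le_trans (Finset.card_le_card this) Finset.card_image_le
      have hcard' : ((Finset.univ.filter (fun u : G =>
          b (q u) ≠ b (q (u * (α x * (β x)⁻¹))))).card : ℝ) ≤
          ((Finset.univ.filter (fun y : G => α y ≠ β y)).card : ℝ) := by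
        exact_mod_cast hcard
      refine le_trans hcard' (le_trans hmost ?_)
      linarith
  -- the automorphism
  have hαb : Function.Bijective α := (Finite.injective_iff_bijective).1 hαinj
  refine ⟨Equiv.ofBijective α hαb, ?_, ?_⟩
  · intro u v
    change cayAdj (setOf' b) (α u) (α v) ↔ cayAdj (setOf' b) u v
    rw [hEq v]
    exact (hαβ u v).symm
  · have hτinj : Function.Injective (fun i : Bool => (σ (1, i)).2) := by
      intro i j hij
      have h12 := hpart2 1 1
      revert hij
      cases i <;> cases j <;> simp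
      · exact h12
      · exact fun h => h12 h.symm
    have hτb : Function.Bijective (fun i : Bool => (σ (1, i)).2) :=
      (Finite.injective_iff_bijective).1 hτinj
    refine ⟨Equiv.ofBijective _ hτb, ?_⟩
    rintro ⟨x, i⟩
    refine Prod.ext ?_ ?_
    · change (σ (x, i)).1 = α x
      cases i
      · rfl
      · exact (hEq x).symm
    · change (σ (x, i)).2 = (σ (1, i)).2
      exact hpart i x 1

/-- The inverse-closed subsets. -/
noncomputable def invClosed (G : Type u) [Group G] [Fintype G] : Finset (Finset G) :=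
  Finset.univ.filter (fun S => ∀ t ∈ S, t⁻¹ ∈ S)

/-- The proportion of inverse-closed subsets with a stable Cayley graph. -/
noncomputable def prop (G : Type u) [Group G] [Fintype G] : ℝ :=
  (((invClosed G).filter (fun S => Stable (cayAdj S))).card : ℝ) / ((invClosed G).card : ℝ)

theorem setOf'_inj {G : Type u} [Group G] [Fintype G] :
    Function.Injective (setOf' : (Cls G → Bool) → Finset G) := by
  intro b b' h
  funext c
  obtain ⟨t, rfl⟩ : ∃ t : G, q t = c := Quotient.exists_rep c
  have := Finset.ext_iff.1 h t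
  rw [mem_setOf', mem_setOf'] at this
  exact Bool.eq_iff_iff.2 this

theorem invClosed_eq (G : Type u) [Group G] [Fintype G] :
    invClosed G = (Finset.univ : Finset (Cls G → Bool)).image setOf' := by
  ext S
  simp only [invClosed, Finset.mem_filter, Finset.mem_univ, true_and, Finset.mem_image]
  constructor
  · intro hS
    refine ⟨fun c => decide (∃ t, q t = c ∧ t ∈ S), ?_⟩
    ext t
    rw [mem_setOf']
    simp only [decide_eq_true_eq]
    constructor
    · rintro ⟨s, hs, hsS⟩
      rcases (q_eq_iff _ _).1 hs with h | h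
      · rwa [← h]
      · have := hS s hsS
        rwa [h, inv_inv] at this
    · intro ht
      exact ⟨t, rfl, ht⟩
  · rintro ⟨b, rfl⟩ t ht
    rw [mem_setOf'] at ht ⊢
    rwa [q_inv]

theorem card_invClosed (G : Type u) [Group G] [Fintype G] :
    (invClosed G).card = 2 ^ Fintype.card (Cls G) := by
  rw [invClosed_eq, Finset.card_image_of_injective _ setOf'_inj, Finset.card_univ]
  simp

theorem main (h1 : S_STR.{u}) (h2 : S_UNI.{u}) (h3 : S_FIN.{u}) (h4 : S_COM.{u}) :
    ∃ c : ℝ, 0 < c ∧ ∃ n₀ : ℕ, ∀ (G : Type u) [Group G] [Fintype G],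
      n₀ ≤ Fintype.card G → 1 - (2 : ℝ) ^ (-(c * (Fintype.card G : ℝ))) ≤ prop G := by
  obtain ⟨τ, hτ0, hτ⟩ := h1 (1 / 1024) (by norm_num)
  obtain ⟨c2, hc2, n2, hn2⟩ := h2 τ hτ0
  obtain ⟨c3, hc3, n3, hn3⟩ := h3
  obtain ⟨c4, hc4, n4, hn4⟩ := h4
  obtain ⟨n5, hn5⟩ : ∃ n5 : ℕ, 3 ≤ (2 : ℝ) ^ ((min c2 (min c3 c4)) / 2 * (n5 : ℝ)) := by
    have hpos : 0 < (min c2 (min c3 c4)) / 2 := by positivity
    obtain ⟨m, hm⟩ := exists_nat_gt (2 / ((min c2 (min c3 c4)) / 2))
    refine ⟨m, ?_⟩
    have h2 : (2 : ℝ) ≤ (min c2 (min c3 c4)) / 2 * (m : ℝ) := by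
      rw [div_lt_iff₀ hpos] at hm
      linarith [mul_comm ((m : ℝ)) ((min c2 (min c3 c4)) / 2)]
    calc (3 : ℝ) ≤ (2 : ℝ) ^ (2 : ℝ) := by norm_num
      _ ≤ _ := Real.rpow_le_rpow_of_exponent_le (by norm_num) h2
  refine ⟨(min c2 (min c3 c4)) / 2, by positivity, max (max n2 n3) (max n4 n5), ?_⟩
  intro G _ _ hn
  have hn2' : n2 ≤ Fintype.card G := le_trans (le_trans (le_max_left _ _) (le_max_left _ _)) hn
  have hn3' : n3 ≤ Fintype.card G := le_trans (le_trans (le_max_right _ _) (le_max_left _ _)) hn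
  have hn4' : n4 ≤ Fintype.card G := le_trans (le_trans (le_max_left _ _) (le_max_right _ _)) hn
  have hn5' : n5 ≤ Fintype.card G := le_trans (le_trans (le_max_right _ _) (le_max_right _ _)) hn
  have e2 := hn2 G hn2'
  have e3 := hn3 G hn3'
  have e4 := hn4 G hn4'
  set B2 := (Finset.univ.filter (fun b : Cls G → Bool => ∃ α β : G → G,
      (∀ x y : G, b (q (y * x⁻¹)) = b (q (β y * (α x)⁻¹))) ∧
      τ * (Fintype.card G : ℝ) ^ 2 ≤
        ((Finset.univ.filter (fun p : G × G =>
          q (p.2 * p.1⁻¹) ≠ q (β p.2 * (α p.1)⁻¹))).card : ℝ))) with hB2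
  set B3 := (Finset.univ.filter (fun b : Cls G → Bool => ∃ h : G, h ≠ 1 ∧
      ((Finset.univ.filter (fun u : G => b (q u) ≠ b (q (u * h)))).card : ℝ)
        ≤ (Fintype.card G : ℝ) / 1024)) with hB3
  set B4 := (Finset.univ.filter (fun b : Cls G → Bool => ∃ g : G, ∀ v : G,
      ¬ (b (q v) = true ∧ b (q (v * g)) = true))) with hB4
  set GS := (Finset.univ.filter (fun b : Cls G → Bool => Stable (cayAdj (setOf' b)))) with hGS
  have hcover : (Finset.univ : Finset (Cls G → Bool)) ⊆ GS ∪ (B2 ∪ (B3 ∪ B4)) := by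
    intro b _
    by_contra hb
    simp only [Finset.mem_union, not_or] at hb
    obtain ⟨hb1, hb2, hb3, hb4⟩ := hb
    simp only [hB2, hB3, hB4, hGS, Finset.mem_filter, Finset.mem_univ, true_and]
      at hb1 hb2 hb3 hb4
    exact hb1 (stable_of b τ (fun f f' h => by simpa using hτ G f f' h) hb2 hb3 hb4)
  have hcardN : (2 : ℝ) ^ (Fintype.card (Cls G)) ≤
      (GS.card : ℝ) + ((B2.card : ℝ) + ((B3.card : ℝ) + (B4.card : ℝ))) := by
    have h := Finset.card_le_card hcover
    have h' := le_trans h (Finset.card_union_le _ _)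
    have h'' : (B2 ∪ (B3 ∪ B4)).card ≤ B2.card + (B3.card + B4.card) :=
      le_trans (Finset.card_union_le _ _) (Nat.add_le_add_left (Finset.card_union_le _ _) _)
    have h3 : (Finset.univ : Finset (Cls G → Bool)).card ≤
        GS.card + (B2.card + (B3.card + B4.card)) :=
      le_trans h' (Nat.add_le_add_left h'' _)
    rw [Finset.card_univ] at h3
    simp only [Fintype.card_fun, Fintype.card_bool] at h3
    exact_mod_cast h3
  set c := min c2 (min c3 c4) with hc
  have hcpos : 0 < c := by positivity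
  have hG0 : (0 : ℝ) ≤ (Fintype.card G : ℝ) := Nat.cast_nonneg _
  have hle : ∀ c' : ℝ, c ≤ c' →
      (2 : ℝ) ^ (-(c' * (Fintype.card G : ℝ))) ≤ (2 : ℝ) ^ (-(c * (Fintype.card G : ℝ))) := by
    intro c' hc'
    apply Real.rpow_le_rpow_of_exponent_le (by norm_num)
    have := mul_le_mul_of_nonneg_right hc' hG0
    linarith
  have hP : (0 : ℝ) < (2 : ℝ) ^ (Fintype.card (Cls G)) := by positivity
  have e2' := le_trans e2 (mul_le_mul_of_nonneg_right (hle c2 (min_le_left _ _)) hP.le)
  have e3' := le_trans e3 (mul_le_mul_of_nonneg_right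
    (hle c3 (le_trans (min_le_right _ _) (min_le_left _ _))) hP.le)
  have e4' := le_trans e4 (mul_le_mul_of_nonneg_right
    (hle c4 (le_trans (min_le_right _ _) (min_le_right _ _))) hP.le)
  have hthree : 3 * (2 : ℝ) ^ (-(c * (Fintype.card G : ℝ))) ≤
      (2 : ℝ) ^ (-(c / 2 * (Fintype.card G : ℝ))) := by
    have h5 : (3 : ℝ) ≤ (2 : ℝ) ^ (c / 2 * (Fintype.card G : ℝ)) := by
      refine le_trans hn5 (Real.rpow_le_rpow_of_exponent_le (by norm_num) ?_)
      exact mul_le_mul_of_nonneg_left (by exact_mod_cast hn5') (by positivity)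
    calc 3 * (2 : ℝ) ^ (-(c * (Fintype.card G : ℝ)))
        ≤ (2 : ℝ) ^ (c / 2 * (Fintype.card G : ℝ)) * (2 : ℝ) ^ (-(c * (Fintype.card G : ℝ))) :=
          mul_le_mul_of_nonneg_right h5 (by positivity)
      _ = (2 : ℝ) ^ (-(c / 2 * (Fintype.card G : ℝ))) := by
          rw [← Real.rpow_add (by norm_num)]
          congr 1
          ring
  have hprop : prop G = (GS.card : ℝ) / (2 : ℝ) ^ (Fintype.card (Cls G)) := by
    unfold prop
    rw [card_invClosed]
    have : ((invClosed G).filter (fun S => Stable (cayAdj S))) = GS.image setOf' := by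
      rw [invClosed_eq]
      ext S
      simp only [Finset.mem_filter, Finset.mem_image, Finset.mem_univ, true_and, hGS]
      constructor
      · rintro ⟨⟨b, rfl⟩, hb⟩
        exact ⟨b, hb, rfl⟩
      · rintro ⟨b, hb, rfl⟩
        exact ⟨⟨b, rfl⟩, hb⟩
    rw [this, Finset.card_image_of_injective _ setOf'_inj]
    push_cast
    rfl
  rw [hprop, le_div_iff₀ hP]
  have : (1 - (2 : ℝ) ^ (-(c / 2 * (Fintype.card G : ℝ)))) * (2 : ℝ) ^ (Fintype.card (Cls G)) ≤
      (2 : ℝ) ^ (Fintype.card (Cls G)) -
        3 * ((2 : ℝ) ^ (-(c * (Fintype.card G : ℝ))) * (2 : ℝ) ^ (Fintype.card (Cls G))) := by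
    have := mul_le_mul_of_nonneg_right hthree hP.le
    nlinarith [this]
  linarith

end Pool.Agent.Q18.SC
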